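import Pool.Agent.H953Z.St

/- Counting lemmas for the stage construction. -/

set_option autoImplicit false
open Filter Finset

namespace Pool.Agent.H485Z.Stg
open Pool.Agent.H953Z

def bas (s : ℤ → Ar) : ℤ → Bool := fun t => (s t).isSome

def LS (Act : (ℤ → Bool) → ℤ → Prop) : Set (ℤ → Ar) :=
  {s | ∀ t b c, s t = some (b, c) → c ≠ 0 → Act (bas s) t}

def Loc (Act : (ℤ → Bool) → ℤ → Prop) (a : ℕ) : Prop :=
  ∀ (x x' : ℤ → Bool) (t t' : ℤ),
    (∀ u : ℤ, -(a : ℤ) ≤ u → u ≤ a → x (t + u) = x' (t' + u)) → Act x t → Act x' t'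

def TMe (y : ℤ → Bool) (n m N : ℕ) (x : ℤ → Bool) (t : ℤ) : Prop :=
  ∃ τ : ℤ, Slot m y τ ∧ ∀ u : ℤ, -((N * n : ℕ) : ℤ) ≤ u →
    u ≤ ((N * n + m + 1 : ℕ) : ℤ) → x (t + u) = y (τ + u)

open Classical in
noncomputable def pt (Act : (ℤ → Bool) → ℤ → Prop) (x : ℤ → Bool) (t : ℤ) : ℝ :=
  (if x t = true then Real.log 2 else 0) + (if Act x t then Real.log 3 else 0)

lemma log2_pos : 0 < Real.log 2 := Real.log_pos (by norm_num)
lemma log3_pos : 0 < Real.log 3 := Real.log_pos (by norm_num)

lemma pt_nonneg (Act : (ℤ → Bool) → ℤ → Prop) (x : ℤ → Bool) (t : ℤ) : 0 ≤ pt Act x t := by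
  have h2 := log2_pos
  have h3 := log3_pos
  unfold pt
  split_ifs <;> linarith

lemma pt_le (Act : (ℤ → Bool) → ℤ → Prop) (x : ℤ → Bool) (t : ℤ) :
    pt Act x t ≤ Real.log 2 + Real.log 3 := by
  have h2 := log2_pos
  have h3 := log3_pos
  unfold pt
  split_ifs <;> linarith

lemma pt_mono {A A' : (ℤ → Bool) → ℤ → Prop} {x x' : ℤ → Bool} {t t' : ℤ}
    (h1 : x t = x' t') (h2 : A x t → A' x' t') : pt A x t ≤ pt A' x' t' := by
  have h3 := log3_pos
  unfold pt
  rw [h1]
  by_cases hA : A x t
  · rw [if_pos hA, if_pos (h2 hA)]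
  · rw [if_neg hA]
    by_cases hA' : A' x' t'
    · rw [if_pos hA']; linarith
    · rw [if_neg hA']

lemma slot_loc {m : ℕ} {x x' : ℤ → Bool} {t t' : ℤ}
    (h : ∀ u : ℤ, 0 ≤ u → u ≤ (m : ℤ) + 1 → x (t + u) = x' (t' + u)) (hs : Slot m x t) :
    Slot m x' t' := by
  obtain ⟨h0, h1, h2⟩ := hs
  refine ⟨?_, ?_, ?_⟩
  · have := h 0 le_rfl (by omega)
    simp only [add_zero] at this
    rw [← this]; exact h0
  · intro i hi1 hi2
    rw [← h i (by omega) (by omega)]
    exact h1 i hi1 hi2
  · have := h ((m : ℤ) + 1) (by omega) le_rfl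
    rw [add_assoc, ← this, ← add_assoc]; exact h2

lemma slot_unique {m m' : ℕ} {x : ℤ → Bool} {t : ℤ} (h : Slot m x t) (h' : Slot m' x t)
    (hlt : m' < m) : False := by
  have h1 := h.2.1 (m' + 1) (by omega) (by omega)
  have h2 := h'.2.2
  rw [add_assoc] at h2
  push_cast at h1
  rw [h1] at h2
  exact Bool.false_ne_true h2

lemma tme_slot {y : ℤ → Bool} {n m N : ℕ} {x : ℤ → Bool} {t : ℤ} (h : TMe y n m N x t) :
    Slot m x t := by
  obtain ⟨τ, hs, hw⟩ := h
  refine slot_loc (fun u h0 h1 => (hw u (by omega) ?_).symm) hs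
  push_cast
  have : (0 : ℤ) ≤ (N : ℤ) * n := by positivity
  omega

lemma slot_tme {y : ℤ → Bool} (n : ℕ) {m : ℕ} (N : ℕ) {t : ℤ} (h : Slot m y t) :
    TMe y n m N y t := ⟨t, h, fun _ _ _ => rfl⟩

lemma lang_mul {A : Type} [Fintype A] (S : Set (ℤ → A))
    (hS : ∀ s ∈ S, ∀ d : ℤ, (fun t => s (t + d)) ∈ S) (a b : ℕ) :
    (lang S (a + b)).ncard ≤ (lang S a).ncard * (lang S b).ncard := by
  rw [← Set.ncard_prod]
  refine Set.ncard_le_ncard_of_injOn
    (fun w : Fin (a + b) → A => ((fun i : Fin a => w (Fin.castAdd b i)),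
      (fun i : Fin b => w (Fin.natAdd a i)))) ?_ ?_ (Set.toFinite _)
  · rintro w ⟨σ, hσ, hw⟩
    refine ⟨⟨σ, hσ, fun i => ?_⟩, ⟨fun t => σ (t + a), hS σ hσ a, fun i => ?_⟩⟩
    · have := hw (Fin.castAdd b i)
      simpa using this
    · have := hw (Fin.natAdd a i)
      simp only [Fin.val_natAdd] at this
      show σ (((i : ℕ) : ℤ) + a) = w (Fin.natAdd a i)
      rw [← this]
      congr 1
      push_cast
      ring
  · intro w _ w' _ h
    simp only [Prod.mk.injEq] at h
    funext i
    refine Fin.addCases (fun j => ?_) (fun j => ?_) i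
    · exact congrFun h.1 j
    · exact congrFun h.2 j

lemma lang_le_pow {A : Type} [Fintype A] (S : Set (ℤ → A)) (n : ℕ) :
    (lang S n).ncard ≤ Fintype.card A ^ n := by
  classical
  have h := Set.ncard_le_ncard (Set.subset_univ (lang S n)) (Set.toFinite _)
  rw [Set.ncard_univ, Nat.card_eq_fintype_card, Fintype.card_fun, Fintype.card_fin] at h
  exact h

lemma lang_count {A : Type} [Fintype A] [Nonempty A] (S : Set (ℤ → A))
    (hS : ∀ s ∈ S, ∀ d : ℤ, (fun t => s (t + d)) ∈ S) (P : ℝ) (hP : 0 ≤ P) (b : ℕ) (hb : 0 < b)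
    (h : ((lang S b).ncard : ℝ) ≤ Real.exp (P * b)) (n : ℕ) :
    ((lang S n).ncard : ℝ) ≤ (Fintype.card A : ℝ) ^ b * Real.exp (P * n) := by
  induction n using Nat.strong_induction_on with
  | _ n ih =>
    by_cases hn : n < b
    · have h1 : ((lang S n).ncard : ℝ) ≤ (Fintype.card A : ℝ) ^ n := by
        exact_mod_cast lang_le_pow S n
      have h2 : (Fintype.card A : ℝ) ^ n ≤ (Fintype.card A : ℝ) ^ b := by
        apply pow_le_pow_right₀ _ hn.le
        exact_mod_cast Fintype.card_pos
      have h3 : 1 ≤ Real.exp (P * n) := Real.one_le_exp (by positivity)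
      have h4 : 0 ≤ (Fintype.card A : ℝ) ^ b := by positivity
      nlinarith
    · obtain ⟨c, rfl⟩ : ∃ c, n = b + c := ⟨n - b, by omega⟩
      have h1 : ((lang S (b + c)).ncard : ℝ) ≤ ((lang S b).ncard : ℝ) * (lang S c).ncard := by
        exact_mod_cast lang_mul S hS b c
      have h2 := ih c (by omega)
      calc ((lang S (b + c)).ncard : ℝ) ≤ ((lang S b).ncard : ℝ) * (lang S c).ncard := h1
        _ ≤ Real.exp (P * b) * ((Fintype.card A : ℝ) ^ b * Real.exp (P * c)) := by
          apply mul_le_mul h h2 (by positivity) (by positivity)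
        _ = (Fintype.card A : ℝ) ^ b * Real.exp (P * ((b + c : ℕ) : ℝ)) := by
          push_cast
          rw [mul_add, Real.exp_add]; ring

lemma LS_shift {Act : (ℤ → Bool) → ℤ → Prop} {a : ℕ} (hL : Loc Act a) :
    ∀ s ∈ LS Act, ∀ d : ℤ, (fun t => s (t + d)) ∈ LS Act := by
  intro s hs d t b c h hc
  have := hs (t + d) b c h hc
  refine hL _ _ _ _ (fun u _ _ => ?_) this
  unfold bas
  simp only
  rw [show t + d + u = t + u + d by ring]

lemma sum_shift (f : ℤ → ℝ) (n : ℕ) (hf : ∀ t, f (t + n) = f t) (τ : ℕ) :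
    ∑ t ∈ range n, f ((τ : ℤ) + t) = ∑ t ∈ range n, f (t : ℤ) := by
  induction τ with
  | zero => simp
  | succ τ ih =>
    rw [← ih]
    have h1 := Finset.sum_range_succ (fun t : ℕ => f ((τ : ℤ) + t)) n
    have h2 := Finset.sum_range_succ' (fun t : ℕ => f ((τ : ℤ) + t)) n
    have h3 : ∑ t ∈ range n, f (((τ + 1 : ℕ) : ℤ) + t) =
        ∑ t ∈ range n, f ((τ : ℤ) + ((t + 1 : ℕ) : ℤ)) := by
      refine Finset.sum_congr rfl fun t _ => ?_
      congr 1
      push_cast
      ring
    have h4 := hf τ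
    simp only [Nat.cast_zero, add_zero] at h2
    rw [h3]
    linarith

lemma sum_per (f : ℤ → ℝ) (n : ℕ) (hf : ∀ t, f (t + n) = f t) (r τ : ℕ) :
    ∑ t ∈ range (r * n), f ((τ : ℤ) + t) = r * ∑ t ∈ range n, f (t : ℤ) := by
  induction r with
  | zero => simp
  | succ r ih =>
    rw [Nat.succ_mul, Finset.sum_range_add, ih]
    have h := sum_shift f n hf (τ + r * n)
    have h3 : ∑ t ∈ range n, f ((τ : ℤ) + ((r * n + t : ℕ) : ℤ)) =
        ∑ t ∈ range n, f (((τ + r * n : ℕ) : ℤ) + t) := by
      refine Finset.sum_congr rfl fun t _ => ?_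
      congr 1
      push_cast
      ring
    rw [h3, h]
    push_cast
    ring

open Classical in
noncomputable def opts (v : Bool) (A : Prop) : Finset Ar :=
  univ.filter fun o => o.isSome = v ∧ ∀ b c, o = some (b, c) → c ≠ 0 → A

open Classical in
lemma opts_card (v : Bool) (A : Prop) :
    ((opts v A).card : ℝ) ≤
      Real.exp ((if v = true then Real.log 2 else 0) + (if A then Real.log 3 else 0)) := by
  have h3 := log3_pos
  cases v with
  | false =>
    have h1 : opts false A ⊆ {none} := by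
      intro o ho
      simp only [opts, mem_filter, mem_univ, true_and] at ho
      cases o with
      | none => simp
      | some p => simp at ho
    have h2 : ((opts false A).card : ℝ) ≤ 1 := by
      exact_mod_cast (Finset.card_le_card h1).trans (by simp)
    refine h2.trans (Real.one_le_exp ?_)
    simp only [Bool.false_eq_true, if_false, zero_add]
    split_ifs <;> linarith
  | true =>
    by_cases hA : A
    · have h1 : opts true A ⊆ (univ : Finset (Bool × Fin 3)).image some := by
        intro o ho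
        simp only [opts, mem_filter, mem_univ, true_and] at ho
        cases o with
        | none => simp at ho
        | some p => simp
      have h2 : ((opts true A).card : ℝ) ≤ 6 := by
        have := (Finset.card_le_card h1).trans Finset.card_image_le
        simp only [card_univ, Fintype.card_prod, Fintype.card_bool, Fintype.card_fin] at this
        exact_mod_cast this
      rw [if_pos rfl, if_pos hA, Real.exp_add, Real.exp_log (by norm_num),
        Real.exp_log (by norm_num)]
      linarith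
    · have h1 : opts true A ⊆ (univ : Finset Bool).image fun b => some (b, 0) := by
        intro o ho
        simp only [opts, mem_filter, mem_univ, true_and] at ho
        cases o with
        | none => simp at ho
        | some p =>
          obtain ⟨b, c⟩ := p
          have hc : c = 0 := by
            by_contra hc
            exact hA (ho.2 b c rfl hc)
          subst hc
          exact Finset.mem_image.2 ⟨b, Finset.mem_univ _, rfl⟩
      have h2 : ((opts true A).card : ℝ) ≤ 2 := by
        have := (Finset.card_le_card h1).trans Finset.card_image_le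
        simp only [card_univ, Fintype.card_bool] at this
        exact_mod_cast this
      rw [if_pos rfl, if_neg hA, add_zero, Real.exp_log (by norm_num)]
      exact h2

noncomputable def Wd (A : (ℤ → Bool) → ℤ → Prop) (y : ℤ → Bool) (b τ : ℕ) :
    Finset (Fin b → Ar) :=
  Fintype.piFinset fun i : Fin b => opts (y ((τ : ℤ) + (i : ℕ))) (A y ((τ : ℤ) + (i : ℕ)))

lemma Wd_card (A : (ℤ → Bool) → ℤ → Prop) (y : ℤ → Bool) (b τ : ℕ) :
    ((Wd A y b τ).card : ℝ) ≤ Real.exp (∑ t ∈ range b, pt A y ((τ : ℤ) + t)) := by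
  unfold Wd
  rw [Fintype.card_piFinset, ← Fin.sum_univ_eq_sum_range (fun t : ℕ => pt A y ((τ : ℤ) + t)) b,
    Real.exp_sum]
  push_cast
  refine Finset.prod_le_prod (fun i _ => by positivity) fun i _ => ?_
  exact opts_card _ _

end Pool.Agent.H485Z.Stg
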