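import Pool.Agent.H485Z.Stg.Step

/- The stage construction: `S_stage`. -/

set_option autoImplicit false
open Filter Finset

namespace Pool.Agent.H485Z.Stg
open Pool.Agent.H953Z

lemma count_zero (l : ℕ) :
    ((lang (LS fun _ _ => False) l).ncard : ℝ) ≤ 1 * Real.exp (Real.log 3 * l) := by
  classical
  have h1 : lang (LS fun _ _ => False) l ⊆
      ((Fintype.piFinset fun _ : Fin l =>
        ({none, some (false, 0), some (true, 0)} : Finset Ar) : Finset _) : Set _) := by
    rintro w ⟨s, hs, hw⟩
    rw [Finset.mem_coe, Fintype.mem_piFinset]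
    intro i
    rw [← hw i]
    cases hst : s ((i : ℕ) : ℤ) with
    | none => simp
    | some p =>
      obtain ⟨b, c⟩ := p
      have hc : c = 0 := by
        by_contra hc
        exact hs _ _ _ hst hc
      subst hc
      cases b <;> simp
  have h2 := Set.ncard_le_ncard h1 (Set.toFinite _)
  rw [Set.ncard_coe_finset, Fintype.card_piFinset] at h2
  have h3 : ∏ _i : Fin l, ({none, some (false, 0), some (true, 0)} : Finset Ar).card ≤
      ∏ _i : Fin l, 3 := Finset.prod_le_prod' fun _ _ => Finset.card_le_three
  have h4 := h2.trans h3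
  rw [Finset.prod_const, card_univ, Fintype.card_fin] at h4
  rw [one_mul, mul_comm, Real.exp_nat_mul, Real.exp_log (by norm_num)]
  exact_mod_cast h4

noncomputable def stage0 : Stage where
  y := fun _ => true
  n := 1
  m := 0
  a := 0
  Act := fun _ _ => False
  P := Real.log 3
  n_pos := Nat.one_pos
  per := fun _ => rfl
  y0 := rfl
  slot := ⟨0, Nat.one_pos, rfl, fun i h1 h2 => by omega, rfl⟩
  act_slot := fun _ _ h => h.elim
  loc := fun _ _ _ _ _ h => h
  P_nonneg := log3_pos.le
  count := ⟨1, count_zero⟩
  lt := by
    have := log2_pos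
    simp [pt, this]

/-- all later positions of the block of `i` are empty -/
def Last {n : ℕ} (l : ℕ) (v : Fin n → Bool) (i : Fin n) : Prop :=
  ∀ j : Fin n, i < j → (j : ℕ) / l = (i : ℕ) / l → v j = false

open Classical in
noncomputable def dec {n : ℕ} (l : ℕ) (p : (Fin n → Ar) × (Fin (n / l + 1) → Fin 3)) :
    Fin n → Ar := fun i =>
  if Last l (fun j => (p.1 j).isSome) i then
    (p.1 i).map fun o => (o.1, p.2 ⟨i / l, Nat.lt_succ_of_le (Nat.div_le_div_right i.2.le)⟩)
  else p.1 i

lemma long_count (Act : (ℤ → Bool) → ℤ → Prop) (m : ℕ) (S : Set (ℤ → Ar))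
    (hS : ∀ s ∈ S, ∀ t b c, s t = some (b, c) → c ≠ 0 →
      Act (bas s) t ∨ ∃ m', m ≤ m' ∧ Slot m' (bas s) t) (n : ℕ) :
    (lang S n).ncard ≤ (lang (LS Act) n).ncard * 3 ^ (n / (m + 1) + 1) := by
  classical
  have h1 : lang S n ⊆ dec (m + 1) '' (lang (LS Act) n ×ˢ Set.univ) := by
    rintro w ⟨s, hs, hw⟩
    let v : Fin n → Bool := fun j => (w j).isSome
    let Keep : ℤ → Prop := fun t => ∃ i : Fin n, ((i : ℕ) : ℤ) = t ∧ ¬ Last (m + 1) v i
    let s' : ℤ → Ar := fun t => if Keep t then s t else (s t).map fun p => (p.1, 0)
    let f : Fin (n / (m + 1) + 1) → Fin 3 := fun q =>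
      if h : ∃ p : Fin n × Fin 3, (p.1 : ℕ) / (m + 1) = q ∧ Last (m + 1) v p.1 ∧
        ∃ b, w p.1 = some (b, p.2) then h.choose.2 else 0
    have hb : bas s' = bas s := by
      funext t
      unfold bas
      simp only [s']
      split_ifs <;> simp
    have hv : (fun j : Fin n => (s' ((j : ℕ) : ℤ)).isSome) = v := by
      funext j
      have := congrFun hb ((j : ℕ) : ℤ)
      unfold bas at this
      rw [this, hw j]
    refine ⟨(fun i => s' ((i : ℕ) : ℤ), f), ⟨⟨s', ?_, fun _ => rfl⟩, Set.mem_univ _⟩, ?_⟩
    · intro t b c h hc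
      rw [hb]
      by_cases ht : Keep t
      · simp only [s', if_pos ht] at h
        rcases hS s hs _ _ _ h hc with hA | ⟨m', hm', hA⟩
        · exact hA
        · exfalso
          obtain ⟨i, rfl, hi⟩ := ht
          apply hi
          intro j hij hq
          have hij' : (i : ℕ) < j := hij
          have e1 := Nat.div_add_mod (i : ℕ) (m + 1)
          have e2 := Nat.div_add_mod (j : ℕ) (m + 1)
          have e3 : (j : ℕ) % (m + 1) < m + 1 := Nat.mod_lt (j : ℕ) (Nat.succ_pos m)
          rw [hq] at e2
          have h2 := hA.2.1 ((j : ℕ) - i) (by omega) (by omega)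
          rw [show ((i : ℕ) : ℤ) + (((j : ℕ) - i : ℕ) : ℤ) = ((j : ℕ) : ℤ) by omega] at h2
          simp only [v]
          rw [← hw j]
          exact h2
      · simp only [s', if_neg ht] at h
        exfalso
        cases hst : s t with
        | none => rw [hst] at h; simp at h
        | some p =>
          rw [hst] at h
          simp only [Option.map_some, Option.some.injEq, Prod.mk.injEq] at h
          exact hc h.2.symm
    · funext i
      unfold dec
      simp only
      rw [hv]
      by_cases hl : Last (m + 1) v i
      · rw [if_pos hl]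
        have hk : ¬ Keep ((i : ℕ) : ℤ) := by
          rintro ⟨j, hj, hj'⟩
          have : j = i := Fin.ext (by omega)
          exact hj' (this ▸ hl)
        simp only [s', if_neg hk]
        rw [hw i]
        cases hwi : w i with
        | none => simp
        | some p =>
          obtain ⟨b, c⟩ := p
          have hex : ∃ p : Fin n × Fin 3, (p.1 : ℕ) / (m + 1) = (i : ℕ) / (m + 1) ∧
              Last (m + 1) v p.1 ∧ ∃ b, w p.1 = some (b, p.2) := ⟨(i, c), rfl, hl, b, hwi⟩
          have hf : f ⟨i / (m + 1), Nat.lt_succ_of_le (Nat.div_le_div_right i.2.le)⟩ = c := by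
            simp only [f]
            rw [dif_pos hex]
            obtain ⟨g1, g2, b', g3⟩ := hex.choose_spec
            have : hex.choose.1 = i := by
              rcases lt_trichotomy hex.choose.1 i with h | h | h
              · have := g2 i h g1.symm
                simp [v, hwi] at this
              · exact h
              · have h5 : (w hex.choose.1).isSome = false := hl _ h g1
                rw [g3] at h5
                simp at h5
            rw [this, hwi] at g3
            simp only [Option.some.injEq, Prod.mk.injEq] at g3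
            exact g3.2.symm
          simp [hf]
      · rw [if_neg hl]
        have hk : Keep ((i : ℕ) : ℤ) := ⟨i, rfl, hl⟩
        simp only [s', if_pos hk]
        exact hw i
  have h2 := (Set.ncard_le_ncard h1 (Set.toFinite _)).trans (Set.ncard_image_le (Set.toFinite _))
  rw [Set.ncard_prod, Set.ncard_univ, Nat.card_eq_fintype_card, Fintype.card_fun,
    Fintype.card_fin, Fintype.card_fin] at h2
  exact h2

theorem thm_stage : S_stage := by
  classical
  choose nx u M N hR using step
  let st : ℕ → Stage := fun k => Nat.rec stage0 (fun j S => nx j S) k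
  have hst : ∀ k, Next k (st k) (st (k + 1)) (u k (st k)) (M k (st k)) (N k (st k)) :=
    fun k => hR k (st k)
  let Q : Par2 :=
    { y := fun k => (st k).y
      n := fun k => (st k).n
      m := fun k => (st k).m
      N := fun k => N k (st k)
      n_pos := fun k => (st k).n_pos
      per := fun k => (st k).per
      y_zero := fun k => (st k).y0
      m_zero := rfl
      m_mono := strictMono_nat_of_lt_succ fun k => (hst k).m_lt
      m_ge := fun k => (hst k).m_ge
      N_pos := fun k => (hst k).N_pos
      grow := fun k => by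
        have h1 := (hst k).a_ge
        have h2 := (hst (k + 1)).a_le
        omega
      slot := fun k => (hst k).slot
      M := fun k => M k (st k)
      u := fun k => u k (st k)
      n_zero := rfl
      y_init := fun _ => rfl
      m_succ := fun k => (hst k).m_succ
      n_succ := fun k => (hst k).n_succ
      y_succ := fun k => (hst k).y_succ
      small := fun k => by
        have h1 := (hst k).a_ge
        refine le_trans (Nat.mul_le_mul_left _ ?_) (hst (k + 1)).small
        omega }
  have hAct : ∀ k x t, (st k).Act x t ↔ ∃ j < k, TM Q.toPar j x t := by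
    intro k
    induction k with
    | zero => intro x t; simp [st, stage0]
    | succ k ih =>
      intro x t
      rw [(hst k).act, ih]
      constructor
      · rintro (⟨j, hj, h⟩ | h)
        · exact ⟨j, by omega, h⟩
        · exact ⟨k, by omega, h⟩
      · rintro ⟨j, hj, h⟩
        rcases Nat.lt_succ_iff_lt_or_eq.1 hj with hj | rfl
        · exact Or.inl ⟨j, hj, h⟩
        · exact Or.inr h
  have hek : ∀ k, ek Q.toPar k =
      (∑ t ∈ range (st (k + 1)).n, pt (st (k + 1)).Act (st (k + 1)).y (t : ℤ)) /
        (st (k + 1)).n := by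
    intro k
    unfold ek
    congr 1
    refine Finset.sum_congr rfl fun t _ => ?_
    unfold pot pt
    exact congrArg₂ (· + ·) rfl (if_congr (hAct (k + 1) _ _).symm rfl rfl)
  have hmono : Monotone fun k => (st k).P :=
    monotone_nat_of_le_succ fun k => (hst k).e_gt.le.trans (hst k).e_le
  have hbd : BddAbove (Set.range fun k => (st k).P) := by
    refine ⟨Real.log 2 + Real.log 3, ?_⟩
    rintro _ ⟨k, rfl⟩
    refine (hst k).e_gt.le.trans ?_
    have hn : (0 : ℝ) < (st (k + 1)).n := by exact_mod_cast (st (k + 1)).n_pos
    rw [div_le_iff₀ hn]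
    refine (Finset.sum_le_sum fun t _ => pt_le _ _ _).trans (le_of_eq ?_)
    rw [Finset.sum_const, card_range, nsmul_eq_mul, mul_comm]
  have h3 := log3_pos
  refine ⟨Q, ⨆ k, (st k).P, lt_of_lt_of_le h3 (le_ciSup hbd 0), fun ε hε => ?_, fun ε hε => ?_⟩
  · obtain ⟨k, hk⟩ := exists_nat_gt (Real.log 3 / ε)
    obtain ⟨C, hC⟩ := (st k).count
    refine ⟨3 * C, fun n => ?_⟩
    have hC0 : 0 ≤ C := by
      have := hC 0
      simp only [Nat.cast_zero, mul_zero, Real.exp_zero, mul_one] at this
      exact le_trans (by positivity) this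
    have h1 := long_count (st k).Act (st k).m
      ((fun σ : ℤ → Al => fun t => red (σ t)) '' Adm Q.toPar) (by
        rintro _ ⟨σ, hσ, rfl⟩ t b c h hc
        have hb : bas (fun t => red (σ t)) = base σ := by
          funext t
          simp [bas, base, red]
        simp only at h ⊢
        rw [hb]
        have hfl : flag σ t := by
          cases hst : σ t with
          | none => rw [hst] at h; simp [red] at h
          | some p =>
            obtain ⟨b', o⟩ := p
            cases o with
            | none =>
              rw [hst] at h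
              simp only [red, Option.map_some, Option.getD_none, Option.some.injEq,
                Prod.mk.injEq] at h
              exact (hc h.2.symm).elim
            | some c' => exact ⟨b', c', hst⟩
        obtain ⟨j, hj⟩ := (hσ.2 t).1 hfl
        by_cases hjk : j < k
        · exact Or.inl ((hAct k _ _).2 ⟨j, hjk, hj⟩)
        · exact Or.inr ⟨Q.m j, Q.m_mono.monotone (not_lt.1 hjk), tme_slot hj⟩) n
    have h2 : ((lang ((fun σ : ℤ → Al => fun t => red (σ t)) '' Adm Q.toPar) n).ncard : ℝ) ≤
        ((lang (LS (st k).Act) n).ncard : ℝ) * 3 ^ (n / ((st k).m + 1) + 1) := by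
      exact_mod_cast h1
    have hkm : k ≤ (st k).m := Q.m_mono.le_apply
    have h4 : (3 : ℝ) ^ (n / ((st k).m + 1)) ≤ Real.exp (ε * n) := by
      rw [← Real.exp_log (show (0 : ℝ) < 3 by norm_num), ← Real.exp_nat_mul]
      apply Real.exp_le_exp.2
      rw [div_lt_iff₀ hε] at hk
      have h5 : ((n / ((st k).m + 1) : ℕ) : ℝ) * k ≤ n := by
        have h6 : n / ((st k).m + 1) * k ≤ n :=
          le_trans (Nat.mul_le_mul_left _ (by omega)) (Nat.div_mul_le_self n ((st k).m + 1))
        exact_mod_cast h6
      have h7 : (0 : ℝ) ≤ ((n / ((st k).m + 1) : ℕ) : ℝ) := by positivity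
      nlinarith
    have h5 : Real.exp ((st k).P * n) ≤ Real.exp ((⨆ k, (st k).P) * n) :=
      Real.exp_le_exp.2 (mul_le_mul_of_nonneg_right (le_ciSup hbd k) (by positivity))
    have h6 := (hC n).trans (mul_le_mul_of_nonneg_left h5 hC0)
    refine h2.trans ?_
    rw [pow_succ, add_mul, Real.exp_add]
    have h7 := mul_le_mul h6 h4 (by positivity) (by positivity)
    nlinarith
  · have h1 := (tendsto_atTop_ciSup hmono hbd).eventually
      (lt_mem_nhds (show (⨆ k, (st k).P) - ε < ⨆ k, (st k).P by linarith))
    refine h1.mono fun k hk => ?_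
    rw [hek]
    exact hk.le.trans (hst k).e_gt.le

end Pool.Agent.H485Z.Stg
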