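import Pool.Agent.H485Z.Stg.Basic

/- One step of the stage construction. -/

set_option autoImplicit false
open Filter Finset

namespace Pool.Agent.H485Z.Stg
open Pool.Agent.H953Z

structure Stage where
  y : ℤ → Bool
  n : ℕ
  m : ℕ
  a : ℕ
  Act : (ℤ → Bool) → ℤ → Prop
  P : ℝ
  n_pos : 0 < n
  per : ∀ t, y (t + n) = y t
  y0 : y 0 = true
  slot : ∃ τ : ℕ, τ < n ∧ Slot m y τ
  act_slot : ∀ x t, Act x t → ∃ m' < m, Slot m' x t
  loc : Loc Act a
  P_nonneg : 0 ≤ P
  count : ∃ C : ℝ, ∀ l : ℕ, ((lang (LS Act) l).ncard : ℝ) ≤ C * Real.exp (P * l)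
  lt : P * n < ∑ t ∈ range n, pt Act y (t : ℤ) + Real.log 3

structure Next (k : ℕ) (S S' : Stage) (u M N : ℕ) : Prop where
  m_succ : S'.m + 1 = u * S.n
  m_lt : S.m < S'.m
  m_ge : 12 * 2 ^ k ≤ S'.m
  n_succ : S'.n = (M + u) * S.n
  y_succ : ∀ t, S'.y t = if t % (S'.n : ℤ) < ((M * S.n : ℕ) : ℤ) then S.y (t % (S'.n : ℤ))
    else decide (t % (S'.n : ℤ) = ((M * S.n : ℕ) : ℤ))
  N_pos : 0 < N
  a_le : S.a ≤ N
  a_ge : N * S'.n + S.m + 1 ≤ S'.a
  small : 2 ^ k * (2 * S.a + u * S.n) ≤ S'.n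
  act : ∀ x t, S'.Act x t ↔ S.Act x t ∨ TMe S'.y S'.n S.m N x t
  slot : ∃ τ, Slot S.m S'.y τ
  e_gt : S.P < (∑ t ∈ range S'.n, pt S'.Act S'.y (t : ℤ)) / S'.n
  e_le : (∑ t ∈ range S'.n, pt S'.Act S'.y (t : ℤ)) / S'.n ≤ S'.P

def nextY (y : ℤ → Bool) (n' K : ℕ) : ℤ → Bool := fun t =>
  if t % (n' : ℤ) < (K : ℤ) then y (t % (n' : ℤ)) else decide (t % (n' : ℤ) = (K : ℤ))

lemma nextY_per (y : ℤ → Bool) (n' K : ℕ) (t : ℤ) : nextY y n' K (t + n') = nextY y n' K t := by
  unfold nextY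
  rw [Int.add_emod_right]

lemma nextY_low (y : ℤ → Bool) (n' K : ℕ) (hK : K < n') (hy : y K = true) (t : ℤ) (h0 : 0 ≤ t)
    (h1 : t ≤ K) : nextY y n' K t = y t := by
  unfold nextY
  rw [Int.emod_eq_of_lt h0 (by omega)]
  by_cases h : t < K
  · rw [if_pos h]
  · rw [if_neg h]
    have : t = K := by omega
    subst this
    simp [hy]

lemma nextY_high (y : ℤ → Bool) (n' K : ℕ) (t : ℤ) (h0 : (K : ℤ) < t)
    (h1 : t < n') : nextY y n' K t = false := by
  unfold nextY
  rw [Int.emod_eq_of_lt (by omega) h1, if_neg (by omega)]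
  simp only [decide_eq_false_iff_not]
  omega

lemma per_mul {y : ℤ → Bool} {n : ℕ} (h : ∀ t, y (t + n) = y t) (q t : ℤ) :
    y (t + q * n) = y t := by
  have hp : Function.Periodic y (n : ℤ) := h
  exact (hp.int_mul q) t

/-- active, or a slot of length `m` -/
def Plus (Act : (ℤ → Bool) → ℤ → Prop) (m : ℕ) (x : ℤ → Bool) (t : ℤ) : Prop :=
  Act x t ∨ Slot m x t

lemma plus_loc {Act : (ℤ → Bool) → ℤ → Prop} {a : ℕ} (h : Loc Act a) (m : ℕ) :
    Loc (Plus Act m) (a + m + 1) := by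
  intro x x' t t' hw hA
  rcases hA with hA | hA
  · exact Or.inl (h x x' t t' (fun u h0 h1 => hw u (by push_cast; omega) (by push_cast; omega)) hA)
  · exact Or.inr (slot_loc (fun u h0 h1 => hw u (by push_cast; omega) (by push_cast; omega)) hA)

lemma pt_per {A : (ℤ → Bool) → ℤ → Prop} {a : ℕ} (h : Loc A a) {y : ℤ → Bool} {n : ℕ}
    (hy : ∀ t, y (t + n) = y t) (t : ℤ) : pt A y (t + n) = pt A y t := by
  have e : ∀ u : ℤ, y (t + n + u) = y (t + u) := fun u => by
    rw [show t + n + u = t + u + n by ring, hy]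
  apply le_antisymm
  · exact pt_mono (hy t) (h _ _ _ _ fun u _ _ => e u)
  · exact pt_mono (hy t).symm (h _ _ _ _ fun u _ _ => (e u).symm)

lemma plus_sum (S : Stage) :
    S.P * S.n < ∑ t ∈ range S.n, pt (Plus S.Act S.m) S.y (t : ℤ) := by
  refine S.lt.trans_le ?_
  obtain ⟨τ, hτ, hs⟩ := S.slot
  have hm : τ ∈ range S.n := mem_range.2 hτ
  rw [← Finset.add_sum_erase _ _ hm, ← Finset.add_sum_erase _ _ hm]
  have h1 : ∑ t ∈ (range S.n).erase τ, pt S.Act S.y (t : ℤ) ≤
      ∑ t ∈ (range S.n).erase τ, pt (Plus S.Act S.m) S.y (t : ℤ) :=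
    Finset.sum_le_sum fun t _ => pt_mono rfl Or.inl
  have h2 : ¬ S.Act S.y τ := fun hA => by
    obtain ⟨m', hm', hs'⟩ := S.act_slot _ _ hA
    exact slot_unique hs hs' hm'
  have h3 : Plus S.Act S.m S.y τ := Or.inr hs
  have h4 : pt S.Act S.y τ + Real.log 3 = pt (Plus S.Act S.m) S.y τ := by
    unfold pt
    rw [if_neg h2, if_pos h3, add_zero]
  linarith

lemma next_sum (S : Stage) (r u : ℕ) (hu : 0 < u) :
    (r : ℝ) * ∑ t ∈ range S.n, pt (Plus S.Act S.m) S.y (t : ℤ) ≤
      ∑ t ∈ range ((r + 2 * (S.a + S.m + 1) + u) * S.n), pt (Plus S.Act S.m)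
        (nextY S.y ((r + 2 * (S.a + S.m + 1) + u) * S.n) ((r + 2 * (S.a + S.m + 1)) * S.n))
        (t : ℤ) := by
  set a' := S.a + S.m + 1 with ha'
  set y' := nextY S.y ((r + 2 * a' + u) * S.n) ((r + 2 * a') * S.n) with hy'
  have hn := S.n_pos
  have hloc := plus_loc S.loc S.m
  have hK : (r + 2 * a') * S.n < (r + 2 * a' + u) * S.n :=
    Nat.mul_lt_mul_of_pos_right (by omega) hn
  have hyK : S.y (((r + 2 * a') * S.n : ℕ) : ℤ) = true := by
    have := per_mul S.per ((r + 2 * a' : ℕ) : ℤ) 0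
    rw [zero_add, S.y0] at this
    rw [← this]; push_cast; rfl
  have hsplit : (r + 2 * a' + u) * S.n = a' * S.n + r * S.n + (a' + u) * S.n := by ring
  rw [← sum_per _ S.n (pt_per hloc S.per) r (a' * S.n)]
  have e1 : ∑ t ∈ range ((r + 2 * a' + u) * S.n), pt (Plus S.Act S.m) y' (t : ℤ) =
      ∑ t ∈ range (a' * S.n + r * S.n + (a' + u) * S.n), pt (Plus S.Act S.m) y' (t : ℤ) := by
    rw [← hsplit]
  rw [e1, Finset.sum_range_add, Finset.sum_range_add]
  have h1 : 0 ≤ ∑ t ∈ range (a' * S.n), pt (Plus S.Act S.m) y' (t : ℤ) :=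
    Finset.sum_nonneg fun _ _ => pt_nonneg _ _ _
  have h2 : 0 ≤ ∑ t ∈ range ((a' + u) * S.n),
      pt (Plus S.Act S.m) y' ((a' * S.n + r * S.n + t : ℕ) : ℤ) :=
    Finset.sum_nonneg fun _ _ => pt_nonneg _ _ _
  have h3 : ∑ t ∈ range (r * S.n), pt (Plus S.Act S.m) S.y (((a' * S.n : ℕ) : ℤ) + t) ≤
      ∑ t ∈ range (r * S.n), pt (Plus S.Act S.m) y' ((a' * S.n + t : ℕ) : ℤ) := by
    refine Finset.sum_le_sum fun t ht => ?_
    have ht' := mem_range.1 ht
    have ha : a' ≤ a' * S.n := Nat.le_mul_of_pos_right _ hn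
    have hK' : (r + 2 * a') * S.n = r * S.n + 2 * (a' * S.n) := by ring
    have hw : ∀ v : ℤ, -(a' : ℤ) ≤ v → v ≤ a' →
        S.y (((a' * S.n : ℕ) : ℤ) + t + v) = y' (((a' * S.n + t : ℕ) : ℤ) + v) := by
      intro v h0 h1
      rw [hy', nextY_low S.y _ _ hK hyK _ (by omega) (by rw [hK']; omega)]
      congr 1
    refine pt_mono ?_ (hloc _ _ _ _ hw)
    have := hw 0 (by omega) (by omega)
    simpa using this
  linarith

lemma next_count (S : Stage) (y' : ℤ → Bool) (n' : ℕ) (hn' : 0 < n')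
    (hper : ∀ t, y' (t + n') = y' t) (b N : ℕ) (hN : b + (S.a + S.m + 1) ≤ N) :
    lang (LS fun x t => S.Act x t ∨ TMe y' n' S.m N x t) b ⊆
      lang (LS S.Act) b ∪ ((range n').biUnion fun τ => Wd (Plus S.Act S.m) y' b τ : Finset _) := by
  classical
  rintro w ⟨s, hs, hw⟩
  by_cases hT : ∃ i : Fin b, TMe y' n' S.m N (bas s) ((i : ℕ) : ℤ)
  · right
    obtain ⟨i0, τ0, -, hτ0⟩ := hT
    have hn0 : (0 : ℤ) < n' := by exact_mod_cast hn'
    have hmod0 : 0 ≤ (τ0 - (i0 : ℕ)) % (n' : ℤ) := Int.emod_nonneg _ hn0.ne'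
    have hmod1 : (τ0 - (i0 : ℕ)) % (n' : ℤ) < n' := Int.emod_lt_of_pos _ hn0
    obtain ⟨τ, hτ⟩ : ∃ τ : ℕ, (τ : ℤ) = (τ0 - (i0 : ℕ)) % (n' : ℤ) :=
      ⟨_, Int.toNat_of_nonneg hmod0⟩
    have hNn : N ≤ N * n' := Nat.le_mul_of_pos_right _ hn'
    have hi0 := i0.2
    have key : ∀ v : ℤ, -((S.a + S.m + 1 : ℕ) : ℤ) ≤ v → v ≤ b + ((S.a + S.m + 1 : ℕ) : ℤ) →
        bas s v = y' (τ + v) := by
      intro v h0 h1
      have h2 := hτ0 (v - (i0 : ℕ)) (by omega) (by omega)
      rw [show ((i0 : ℕ) : ℤ) + (v - (i0 : ℕ)) = v by ring] at h2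
      rw [h2, ← per_mul hper ((τ0 - (i0 : ℕ)) / (n' : ℤ)) (τ + v)]
      congr 1
      have := Int.emod_add_ediv_mul (τ0 - (i0 : ℕ)) (n' : ℤ)
      rw [hτ]
      linarith
    simp only [Finset.coe_biUnion, Set.mem_iUnion, Finset.mem_coe]
    refine ⟨τ, mem_range.2 (by omega), ?_⟩
    unfold Wd
    rw [Fintype.mem_piFinset]
    intro i
    have hi := i.2
    simp only [opts, mem_filter, mem_univ, true_and]
    refine ⟨?_, fun bb c h hc => ?_⟩
    · rw [← key _ (by omega) (by omega), ← hw i]; rfl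
    · rw [← hw i] at h
      have hA : Plus S.Act S.m (bas s) ((i : ℕ) : ℤ) := by
        rcases hs _ _ _ h hc with hA | hA
        · exact Or.inl hA
        · exact Or.inr (tme_slot hA)
      refine plus_loc S.loc S.m _ _ _ _ (fun v h0 h1 => ?_) hA
      rw [key _ (by omega) (by omega), add_assoc]
  · left
    refine ⟨fun t => if 0 ≤ t ∧ t < b then s t else (s t).map fun p => (p.1, 0), ?_, fun i => ?_⟩
    · have hb : bas (fun t => if 0 ≤ t ∧ t < b then s t else (s t).map fun p => (p.1, 0)) =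
          bas s := by
        funext t
        unfold bas
        simp only
        split_ifs <;> simp
      intro t bb c h hc
      rw [hb]
      by_cases ht : 0 ≤ t ∧ t < b
      · simp only [if_pos ht] at h
        rcases hs _ _ _ h hc with hA | hA
        · exact hA
        · exfalso
          apply hT
          refine ⟨⟨t.toNat, by omega⟩, ?_⟩
          simp only [Int.toNat_of_nonneg ht.1]
          exact hA
      · simp only [if_neg ht] at h
        exfalso
        cases hst : s t with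
        | none => rw [hst] at h; simp at h
        | some p =>
          rw [hst] at h
          simp only [Option.map_some, Option.some.injEq, Prod.mk.injEq] at h
          exact hc h.2.symm
    · have hi := i.2
      simp only
      rw [if_pos ⟨by omega, by omega⟩]
      exact hw i

lemma step (k : ℕ) (S : Stage) : ∃ (S' : Stage) (u M N : ℕ), Next k S S' u M N := by
  classical
  have hn := S.n_pos
  have h3 := log3_pos
  set a' := S.a + S.m + 1 with ha'
  set u := S.m + 2 + 12 * 2 ^ k with hu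
  have hun : u ≤ u * S.n := Nat.le_mul_of_pos_right _ hn
  obtain ⟨m', hm'⟩ : ∃ m', m' + 1 = u * S.n := ⟨u * S.n - 1, by omega⟩
  set G := ∑ t ∈ range S.n, pt (Plus S.Act S.m) S.y (t : ℤ) with hG
  have hGP : S.P * S.n < G := plus_sum S
  obtain ⟨r0, hr0⟩ := exists_nat_gt (S.P * ((2 * a' + u : ℕ) * S.n) / (G - S.P * S.n))
  set r := r0 + 2 ^ k * (2 * S.a + u * S.n) with hr
  set M := r + 2 * a' with hM
  set n' := (M + u) * S.n with hn'
  set y' := nextY S.y n' (M * S.n) with hy'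
  have hn'pos : 0 < n' := Nat.mul_pos (by omega) hn
  have hK : M * S.n < n' := Nat.mul_lt_mul_of_pos_right (by omega) hn
  have hsum : n' = M * S.n + m' + 1 := by rw [hn', add_mul]; omega
  have hyK : S.y ((M * S.n : ℕ) : ℤ) = true := by
    have := per_mul S.per (M : ℤ) 0
    rw [zero_add, S.y0] at this
    rw [← this]; push_cast; rfl
  have hper : ∀ t, y' (t + n') = y' t := nextY_per _ _ _
  have hy0 : y' 0 = true := by
    rw [hy', nextY_low S.y _ _ hK hyK 0 le_rfl (by omega)]; exact S.y0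
  set T := ∑ t ∈ range n', pt (Plus S.Act S.m) y' (t : ℤ) with hT
  have hrG : (r : ℝ) * G ≤ T := next_sum S r u (by omega)
  have hn'R : (0 : ℝ) < n' := by exact_mod_cast hn'pos
  have hPT : S.P * n' < T := by
    refine lt_of_lt_of_le ?_ hrG
    rw [div_lt_iff₀ (by linarith)] at hr0
    have h1 : (r0 : ℝ) ≤ r := by exact_mod_cast Nat.le_add_right _ _
    have h2 : (r0 : ℝ) * (G - S.P * S.n) ≤ r * (G - S.P * S.n) :=
      mul_le_mul_of_nonneg_right h1 (by linarith)
    have h4 : (n' : ℝ) = r * S.n + ((2 * a' + u : ℕ) : ℝ) * S.n := by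
      rw [hn', hM]; push_cast; ring
    rw [h4]
    nlinarith
  set e := T / n' with he
  have hPe : S.P < e := by rw [he, lt_div_iff₀ hn'R]; exact hPT
  have heT : e * n' = T := by rw [he]; field_simp
  obtain ⟨C, hC⟩ := S.count
  have hC0 : 0 ≤ C := by
    have := hC 0
    simp only [Nat.cast_zero, mul_zero, Real.exp_zero, mul_one] at this
    exact le_trans (by positivity) this
  obtain ⟨q, hq⟩ := exists_nat_gt ((C + n') / (Real.log 3 / 2))
  rw [div_lt_iff₀ (by linarith)] at hq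
  have hq0 : 0 < q := by
    rcases Nat.eq_zero_or_pos q with h | h
    · subst h
      simp only [Nat.cast_zero, zero_mul] at hq
      linarith
    · exact h
  set b := q * n' with hb
  set N := b + a' with hN
  set Act' : (ℤ → Bool) → ℤ → Prop := fun x t => S.Act x t ∨ TMe y' n' S.m N x t with hAct'
  have hpt : ∀ t, pt Act' y' t = pt (Plus S.Act S.m) y' t := by
    intro t
    apply le_antisymm
    · refine pt_mono rfl fun h => ?_
      rcases h with h | h
      · exact Or.inl h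
      · exact Or.inr (tme_slot h)
    · refine pt_mono rfl fun h => ?_
      rcases h with h | h
      · exact Or.inl h
      · exact Or.inr (slot_tme _ _ h)
  have hT' : ∑ t ∈ range n', pt Act' y' (t : ℤ) = T := Finset.sum_congr rfl fun t _ => hpt t
  have hloc' : Loc Act' (N * n' + S.m + 1 + S.a) := by
    intro x x' t t' hw hA
    rcases hA with hA | ⟨τ, hs, hτ⟩
    · exact Or.inl (S.loc x x' t t' (fun v h0 h1 => hw v (by omega) (by omega)) hA)
    · refine Or.inr ⟨τ, hs, fun v h0 h1 => ?_⟩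
      rw [← hw v (by omega) (by omega)]
      exact hτ v h0 h1
  set P' := e + Real.log 3 / (2 * n') with hP'
  have hδ : 0 < Real.log 3 / (2 * n') := by positivity
  have hP'0 : 0 ≤ P' := by have := S.P_nonneg; linarith
  have hcount : ((lang (LS Act') b).ncard : ℝ) ≤ Real.exp (P' * b) := by
    have h1 := Set.ncard_le_ncard (next_count S y' n' hn'pos hper b N le_rfl) (Set.toFinite _)
    have h2 := h1.trans (Set.ncard_union_le _ _)
    rw [Set.ncard_coe_finset] at h2
    have h4 := h2.trans (Nat.add_le_add_left Finset.card_biUnion_le _)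
    have h5 : ((lang (LS Act') b).ncard : ℝ) ≤ ((lang (LS S.Act) b).ncard : ℝ) +
        ∑ τ ∈ range n', ((Wd (Plus S.Act S.m) y' b τ).card : ℝ) := by exact_mod_cast h4
    have h6 : ∑ τ ∈ range n', ((Wd (Plus S.Act S.m) y' b τ).card : ℝ) ≤
        ∑ τ ∈ range n', Real.exp (e * b) := by
      refine Finset.sum_le_sum fun τ _ => (Wd_card _ _ _ _).trans (le_of_eq ?_)
      rw [hb, sum_per _ n' (pt_per (plus_loc S.loc S.m) hper) q τ, ← hT, ← heT]
      congr 1
      push_cast
      ring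
    rw [Finset.sum_const, card_range, nsmul_eq_mul] at h6
    have h7 : C * Real.exp (S.P * b) ≤ C * Real.exp (e * b) := by
      apply mul_le_mul_of_nonneg_left _ hC0
      exact Real.exp_le_exp.2 (mul_le_mul_of_nonneg_right hPe.le (by positivity))
    have h8 : C + n' ≤ Real.exp (q * (Real.log 3 / 2)) := by
      have := Real.add_one_le_exp (q * (Real.log 3 / 2))
      linarith
    have h9 : Real.exp (P' * b) = Real.exp (q * (Real.log 3 / 2)) * Real.exp (e * b) := by
      rw [← Real.exp_add]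
      congr 1
      rw [hP', hb]
      push_cast
      field_simp
      ring
    have h10 := hC b
    have h11 := mul_le_mul_of_nonneg_right h8 (Real.exp_pos (e * b)).le
    rw [h9]
    linarith
  have hslot' : Slot m' y' ((M * S.n : ℕ) : ℤ) := by
    refine ⟨?_, fun i h1 h2 => ?_, ?_⟩
    · rw [hy', nextY_low S.y _ _ hK hyK _ (by omega) le_rfl]; exact hyK
    · rw [hy']
      exact nextY_high _ _ _ _ (by omega) (by omega)
    · have := hper 0
      rw [hy0, zero_add] at this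
      rw [← this]
      congr 1
      omega
  have hslot : ∃ τ, Slot S.m y' τ := by
    obtain ⟨τ, hτ, hs⟩ := S.slot
    refine ⟨τ, slot_loc (fun v h0 h1 => ?_) hs⟩
    have h4 : M * S.n = (r + a' + S.a + S.m) * S.n + S.n := by rw [hM, ha']; ring
    have h5 : r + a' + S.a + S.m ≤ (r + a' + S.a + S.m) * S.n := Nat.le_mul_of_pos_right _ hn
    rw [hy', nextY_low S.y _ _ hK hyK _ (by omega) (by omega)]
  refine ⟨⟨y', n', m', N * n' + S.m + 1 + S.a, Act', P', hn'pos, hper, hy0,
    ⟨M * S.n, hK, hslot'⟩, ?_, hloc', hP'0,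
    ⟨_, lang_count _ (LS_shift hloc') P' hP'0 b (Nat.mul_pos hq0 hn'pos) hcount⟩, ?_⟩,
    u, M, N, ?_⟩
  · intro x t hA
    rcases hA with hA | hA
    · obtain ⟨m0, h1, h2⟩ := S.act_slot _ _ hA
      exact ⟨m0, by omega, h2⟩
    · exact ⟨S.m, by omega, tme_slot hA⟩
  · rw [hT', hP', add_mul, heT]
    have : Real.log 3 / (2 * n') * n' = Real.log 3 / 2 := by field_simp
    rw [this]
    linarith
  · refine ⟨hm', by simp only; omega, by simp only; omega, hn', fun t => rfl, by omega, by omega,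
      by simp only; omega, ?_, fun x t => Iff.rfl, hslot, ?_, ?_⟩
    · have h4 : M + u ≤ (M + u) * S.n := Nat.le_mul_of_pos_right _ hn
      simp only
      omega
    · simp only
      rw [hT']; exact hPe
    · simp only
      rw [hT']; linarith

end Pool.Agent.H485Z.Stg
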